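import Pool.Agent.helper31.GPR.Spec

/-!
# GPR, row NU2: a bound for a sum of binomial coefficients
-/

set_option autoImplicit false

namespace Pool.Agent.GPR

open Pool.Agent.helper25.QST

theorem NU2_sum (d c : ℕ) (hc : c ≤ d) : KK d c * 7 ^ (d - c) ≤ 8 ^ d := by
  have e : (8 : ℕ) ^ d = ∑ i ∈ Finset.range (d + 1), 7 ^ (d - i) * d.choose i := by
    have h := add_pow (1 : ℕ) 7 d
    norm_num at h
    exact h
  rw [e, KK, Finset.sum_mul]
  refine le_trans (Finset.sum_le_sum fun i hi => ?_)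
    (Finset.sum_le_sum_of_subset (Finset.range_subset_range.2 (by omega : c + 1 ≤ d + 1)))
  rw [mul_comm]
  refine Nat.mul_le_mul_right _ (Nat.pow_le_pow_right (by norm_num) ?_)
  have := Finset.mem_range.1 hi
  omega

theorem NU2_num (l : ℕ) (hl : 5 ≤ l) : 4 * 8 ^ (8 * l) ≤ 2 ^ (5 * l) * 7 ^ (7 * l) := by
  induction l, hl using Nat.le_induction with
  | base => norm_num
  | succ l hl ih =>
    have e1 : 4 * 8 ^ (8 * (l + 1)) = 4 * 8 ^ (8 * l) * 8 ^ 8 := by ring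
    have e2 : 2 ^ (5 * (l + 1)) * 7 ^ (7 * (l + 1)) = 2 ^ (5 * l) * 7 ^ (7 * l) * (2 ^ 5 * 7 ^ 7) := by ring
    rw [e1, e2]
    exact Nat.mul_le_mul ih (by norm_num)

theorem NU2 : NU2_stmt := by
  intro l c hl hc
  have h1 := NU2_sum (8 * l) c (by omega)
  have h2 := NU2_num l hl
  have h3 : 2 ^ l * 7 ^ (7 * l) ≤ 2 ^ c * 7 ^ (8 * l - c) := by
    have e1 : 2 ^ l = 2 ^ c * 2 ^ (l - c) := by
      rw [← pow_add]
      congr 1
      omega
    have e2 : 7 ^ (8 * l - c) = 7 ^ (l - c) * 7 ^ (7 * l) := by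
      rw [← pow_add]
      congr 1
      omega
    rw [e1, e2, mul_assoc]
    exact Nat.mul_le_mul_left _ (Nat.mul_le_mul_right _ (Nat.pow_le_pow_left (by norm_num) _))
  have h4 : 0 < 7 ^ (8 * l - c) := by positivity
  have e3 : 2 ^ (c + 4 * l) = 4 * 2 ^ (c + 4 * l - 2) := by
    have : c + 4 * l = c + 4 * l - 2 + 2 := by omega
    conv_lhs => rw [this, pow_add]
    ring
  have h5 : (4 * KK (8 * l) c) * 7 ^ (8 * l - c) ≤ (4 * 2 ^ (c + 4 * l - 2)) * 7 ^ (8 * l - c) := by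
    calc (4 * KK (8 * l) c) * 7 ^ (8 * l - c) = 4 * (KK (8 * l) c * 7 ^ (8 * l - c)) := by ring
      _ ≤ 4 * 8 ^ (8 * l) := Nat.mul_le_mul_left _ h1
      _ ≤ 2 ^ (5 * l) * 7 ^ (7 * l) := h2
      _ = 2 ^ (4 * l) * (2 ^ l * 7 ^ (7 * l)) := by ring
      _ ≤ 2 ^ (4 * l) * (2 ^ c * 7 ^ (8 * l - c)) := Nat.mul_le_mul_left _ h3
      _ = 2 ^ (c + 4 * l) * 7 ^ (8 * l - c) := by ring
      _ = (4 * 2 ^ (c + 4 * l - 2)) * 7 ^ (8 * l - c) := by rw [e3]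
  have h6 := Nat.le_of_mul_le_mul_right h5 h4
  omega

end Pool.Agent.GPR
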